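import Pool.Agent.Run7.h94.PStrong

/-!
# `C_1` fields, and `C_i` fields with suitable normic forms, are strongly `C_i`

Every `C_1` field is strongly `C_1`.  For `i ≥ 2`, a `C_i` field is strongly `C_i` as soon as it has
a normic form of order `i` and prime power degree, or normic forms of order `i` of two
multiplicatively independent degrees.
-/

set_option autoImplicit false

namespace Pool.Agent.Results.MP_76ffd5_al.StronglyCi

/-- `K` has a normic form of order `i` and degree `a`: a form of degree `a` in `a ^ i` variables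
over `K` whose only zero is the origin. -/
def Normic (K : Type*) [Field K] (i a : ℕ) : Prop :=
  ∃ A : MvPolynomial (Fin (a ^ i)) K, A.IsHomogeneous a ∧
    ∀ y : Fin (a ^ i) → K, MvPolynomial.eval y A = 0 → y = 0

/-- Let `K` be a `C_i` field.  Suppose that `i ≤ 1`, or that `K` has a normic form of order `i` and
prime power degree `p ^ c`, or that `K` has normic forms of order `i` of two multiplicatively
independent degrees `a, b ≥ 2`.  Then `K` is strongly `C_i`: any forms `f_1, …, f_r` of degrees
`d_1, …, d_r > 0` in `n > ∑ d_j ^ i` variables over `K` have a common nontrivial zero in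
`K ^ n`. -/
theorem result (K : Type*) [Field K] (i : ℕ)
    (hK : ∀ (n d : ℕ) (f : MvPolynomial (Fin n) K), 0 < d → f.IsHomogeneous d → d ^ i < n →
      ∃ x : Fin n → K, x ≠ 0 ∧ MvPolynomial.eval x f = 0)
    (hN : i ≤ 1 ∨ (∃ p c : ℕ, p.Prime ∧ 0 < c ∧ Normic K i (p ^ c)) ∨
      (∃ a b : ℕ, 2 ≤ a ∧ 2 ≤ b ∧ (∀ s t : ℕ, a ^ s = b ^ t → s = 0 ∧ t = 0) ∧
        Normic K i a ∧ Normic K i b))
    (n r : ℕ) (d : Fin r → ℕ) (hd : ∀ j, 0 < d j) (f : Fin r → MvPolynomial (Fin n) K)
    (hf : ∀ j, (f j).IsHomogeneous (d j)) (hn : ∑ j, d j ^ i < n) :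
    ∃ x : Fin n → K, x ≠ 0 ∧ ∀ j, MvPolynomial.eval x (f j) = 0 := by
  by_contra hcon
  push Not at hcon
  have hani : H19CI.Aniso f := by
    intro x hx
    by_contra h
    obtain ⟨t, ht⟩ := hcon x h
    exact ht (hx t)
  have key : Fintype.card (Fin n) ≤ ∑ j, d j ^ i := by
    by_cases halg : IsAlgClosed K
    · refine (Run7.h94.closed_le' f d hd hf hani).trans ?_
      calc Fintype.card (Fin r) = ∑ _j : Fin r, 1 := by simp
        _ ≤ ∑ j, d j ^ i := Finset.sum_le_sum fun j _ => Nat.pow_pos (hd j)
    rcases Nat.lt_trichotomy i 1 with hi | hi | hi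
    · exfalso
      have hi0 : i = 0 := by omega
      subst hi0
      obtain ⟨e, he, A, hA1, hA2⟩ := H19CI.exists_binary halg
      obtain ⟨x, hx0, hx⟩ := hK 2 e A he hA1 (by rw [pow_zero]; omega)
      exact hx0 (hA2 x hx)
    · subst hi
      exact Run7.h94.strong_one_hom hK f d hd hf hani
    · rcases hN with h | ⟨p, c, hp, hc, hA⟩ | ⟨a, b, ha, hb, hab, hA, hB⟩
      · omega
      · exact Run7.h94.strong_ppow (by omega) hK hp hc hA f d hd hf hani
      · exact Run7.h94.strongly_pair hK ha hb (fun s t h => (hab s t h).1) hA hB f d hd hf hani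
  rw [Fintype.card_fin] at key
  omega

end Pool.Agent.Results.MP_76ffd5_al.StronglyCi
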